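import Pool.Agent.helper86.BK.Spec2

set_option autoImplicit false

namespace Pool.Agent.BK

/-- the dilated residue -/
def DIL_phi (Q R r x : ℤ) : ℤ := (Q * ((r * x) % R)) / R

theorem DIL_phi_nonneg (Q R r x : ℤ) (hQ : 0 < Q) (hR : 0 < R) : 0 ≤ DIL_phi Q R r x := by
  unfold DIL_phi
  exact Int.ediv_nonneg (mul_nonneg hQ.le (Int.emod_nonneg _ hR.ne')) hR.le

theorem DIL_phi_lt (Q R r x : ℤ) (hQ : 0 < Q) (hR : 0 < R) : DIL_phi Q R r x < Q := by
  unfold DIL_phi
  apply Int.ediv_lt_of_lt_mul hR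
  exact mul_lt_mul_of_pos_left (Int.emod_lt_of_pos _ hR) hQ

/-- the progression -/
theorem DIL_prog (Q R r b d : ℤ) (k : ℕ) (hR : 0 < R) :
    ∃ e : ℕ, e ≤ k ∧ (DIL_phi Q R r b + k * DIL_phi Q R r d) % Q
      = (DIL_phi Q R r (b + k * d) - e) % Q := by
  unfold DIL_phi
  set U := Q * ((r * b) % R) with hU
  set V := Q * ((r * d) % R) with hV
  have hW : ∃ j : ℤ, (r * (b + k * d)) % R = (r * b) % R + k * ((r * d) % R) - R * j := by
    have h1 := Int.emod_add_mul_ediv (r * b) R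
    have h2 := Int.emod_add_mul_ediv (r * d) R
    have h3 := Int.emod_add_mul_ediv (r * (b + k * d)) R
    refine ⟨(r * (b + k * d)) / R - (r * b) / R - k * ((r * d) / R), ?_⟩
    linear_combination h3 - h1 - (k : ℤ) * h2
  obtain ⟨j, hj⟩ := hW
  have hu := Int.emod_add_mul_ediv U R
  have hv := Int.emod_add_mul_ediv V R
  have hu0 := Int.emod_nonneg U hR.ne'
  have hv0 := Int.emod_nonneg V hR.ne'
  have hu1 := Int.emod_lt_of_pos U hR
  have hv1 := Int.emod_lt_of_pos V hR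
  have hk : (0 : ℤ) ≤ k := Int.natCast_nonneg k
  have he0 : 0 ≤ (U % R + k * (V % R)) / R :=
    Int.ediv_nonneg (add_nonneg hu0 (mul_nonneg hk hv0)) hR.le
  have he1 : (U % R + k * (V % R)) / R < k + 1 := by
    apply Int.ediv_lt_of_lt_mul hR
    nlinarith
  refine ⟨((U % R + k * (V % R)) / R).toNat, by omega, ?_⟩
  rw [Int.toNat_of_nonneg he0, hj]
  have h4 : Q * ((r * b) % R + k * ((r * d) % R) - R * j) =
      (U % R + k * (V % R)) + R * (U / R + k * (V / R) - Q * j) := by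
    linear_combination (-1 : ℤ) * hu - (k : ℤ) * hv
  rw [h4, Int.add_mul_ediv_left _ _ hR.ne']
  have h5 : (U % R + k * (V % R)) / R + (U / R + k * (V / R) - Q * j)
      - (U % R + k * (V % R)) / R = (U / R + k * (V / R)) + Q * (-j) := by ring
  rw [h5, Int.add_mul_emod_self_left]

/-- few collisions for a pair -/
theorem DIL_pair (Q R : ℕ) (d d' : ℤ) (hQ : 0 < Q) (hR : R.Prime) (hne : d ≠ d')
    (hlt : (d - d').natAbs < R) :
    ((Finset.range R).filter (fun r : ℕ => DIL_phi Q R r d = DIL_phi Q R r d')).card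
      ≤ 2 * ((R - 1) / Q) + 1 := by
  have hRp : (0 : ℤ) < R := by exact_mod_cast hR.pos
  have hQp : (0 : ℤ) < Q := by exact_mod_cast hQ
  set K : ℕ := (R - 1) / Q with hK
  have hcard : (Finset.Icc (-(K : ℤ)) K).card = 2 * K + 1 := by
    rw [Int.card_Icc]; omega
  rw [← hcard]
  apply Finset.card_le_card_of_injOn (fun r : ℕ => ((r : ℤ) * d) % R - ((r : ℤ) * d') % R)
  · intro r hr
    simp only [Finset.coe_filter, Finset.mem_range, Set.mem_setOf_eq] at hr
    obtain ⟨_, hr⟩ := hr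
    unfold DIL_phi at hr
    have h1 := Int.emod_add_mul_ediv ((Q : ℤ) * ((r * d) % R)) R
    have h2 := Int.emod_add_mul_ediv ((Q : ℤ) * ((r * d') % R)) R
    have h3 := Int.emod_nonneg ((Q : ℤ) * ((r * d) % R)) hRp.ne'
    have h4 := Int.emod_nonneg ((Q : ℤ) * ((r * d') % R)) hRp.ne'
    have h5 := Int.emod_lt_of_pos ((Q : ℤ) * ((r * d) % R)) hRp
    have h6 := Int.emod_lt_of_pos ((Q : ℤ) * ((r * d') % R)) hRp
    rw [hr] at h1
    simp only [Finset.coe_Icc, Set.mem_Icc]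
    have h7 : (Q : ℤ) * ((r * d) % R - (r * d') % R) < R := by linarith
    have h8 : -(R : ℤ) < (Q : ℤ) * ((r * d) % R - (r * d') % R) := by linarith
    have hKdef : (K : ℤ) = ((R : ℤ) - 1) / Q := by
      rw [hK]; push_cast [Nat.cast_sub hR.one_lt.le]; rfl
    constructor
    · have : -((r * d) % R - (r * d') % R) ≤ (K : ℤ) := by
        rw [hKdef]; apply (Int.le_ediv_iff_mul_le hQp).mpr; linarith
      linarith
    · rw [hKdef]; apply (Int.le_ediv_iff_mul_le hQp).mpr; linarith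
  · intro r hr r' hr' h
    simp only [Finset.coe_filter, Finset.mem_range, Set.mem_setOf_eq] at hr hr'
    simp only at h
    have h1 := Int.emod_add_mul_ediv ((r : ℤ) * d) R
    have h2 := Int.emod_add_mul_ediv ((r : ℤ) * d') R
    have h3 := Int.emod_add_mul_ediv ((r' : ℤ) * d) R
    have h4 := Int.emod_add_mul_ediv ((r' : ℤ) * d') R
    have h5 : (R : ℤ) ∣ ((r : ℤ) - r') * (d - d') := by
      refine ⟨(r : ℤ) * d / R - (r : ℤ) * d' / R - (r' : ℤ) * d / R + (r' : ℤ) * d' / R, ?_⟩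
      linear_combination h + h1 * (-1) + h2 + h3 - h4
    rcases (Nat.prime_iff_prime_int.mp hR).dvd_or_dvd h5 with h6 | h6
    · have h7 := Int.eq_zero_of_abs_lt_dvd h6 (by rw [abs_lt]; constructor <;> omega)
      omega
    · exfalso
      have h7 := Int.eq_zero_of_abs_lt_dvd h6 (by rw [Int.abs_eq_natAbs]; exact_mod_cast hlt)
      exact hne (by linarith)

/-- a good dilation -/
theorem DIL_good (D : Finset ℤ) (Q : ℕ) (hD : 1 ≤ D.card) (hQ : 4 * D.card ≤ Q) :
    ∃ R : ℕ, 0 < R ∧ ∃ r : ℕ, D.card ≤ 2 * (D.image (DIL_phi Q R r)).card := by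
  set m := D.card with hm
  obtain ⟨R, hRge, hR⟩ := Nat.exists_infinite_primes (m ^ 2 + 2 * ∑ x ∈ D, x.natAbs + 1)
  have hQ0 : 0 < Q := by omega
  refine ⟨R, hR.pos, ?_⟩
  by_contra hcon
  push Not at hcon
  have hlt : ∀ d ∈ D, ∀ d' ∈ D, (d - d').natAbs < R := by
    intro d hd d' hd'
    have h1 : d.natAbs ≤ ∑ x ∈ D, x.natAbs :=
      Finset.single_le_sum (f := fun x : ℤ => x.natAbs) (fun _ _ => Nat.zero_le _) hd
    have h2 : d'.natAbs ≤ ∑ x ∈ D, x.natAbs :=
      Finset.single_le_sum (f := fun x : ℤ => x.natAbs) (fun _ _ => Nat.zero_le _) hd'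
    have h3 := Int.natAbs_sub_le d d'
    have h4 := Nat.zero_le (m ^ 2)
    omega
  -- collisions
  set col : ℕ → Finset (ℤ × ℤ) := fun r =>
    D.offDiag.filter (fun x => DIL_phi Q R r x.1 = DIL_phi Q R r x.2) with hcol
  have hmany : ∀ r : ℕ, m + 1 ≤ 2 * (col r).card := by
    intro r
    have h1 := hcon r
    -- elements without collision
    have h2 : (D.filter (fun d => ∀ d' ∈ D, d' ≠ d → DIL_phi Q R r d ≠ DIL_phi Q R r d')).card
        ≤ (D.image (DIL_phi Q R r)).card := by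
      apply Finset.card_le_card_of_injOn (DIL_phi Q R r)
      · intro d hd
        simp only [Finset.coe_filter, Set.mem_setOf_eq] at hd
        exact Finset.mem_coe.mpr (Finset.mem_image_of_mem _ hd.1)
      · intro d hd d' hd' h
        simp only [Finset.coe_filter, Set.mem_setOf_eq] at hd hd'
        by_contra hne
        exact hd.2 d' hd'.1 (fun h' => hne h'.symm) h
    have h3 : (D.filter (fun d => ¬ ∀ d' ∈ D, d' ≠ d → DIL_phi Q R r d ≠ DIL_phi Q R r d')).card
        ≤ (col r).card := by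
      have h4 : D.filter (fun d => ¬ ∀ d' ∈ D, d' ≠ d → DIL_phi Q R r d ≠ DIL_phi Q R r d')
          ⊆ (col r).image Prod.fst := by
        intro d hd
        rw [Finset.mem_filter] at hd
        obtain ⟨hd, h5⟩ := hd
        push Not at h5
        obtain ⟨d', hd', hne, h6⟩ := h5
        rw [Finset.mem_image]
        refine ⟨(d, d'), ?_, rfl⟩
        rw [hcol]
        simp only [Finset.mem_filter, Finset.mem_offDiag]
        exact ⟨⟨hd, hd', hne.symm⟩, h6⟩
      exact (Finset.card_le_card h4).trans Finset.card_image_le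
    have h5 := Finset.card_filter_add_card_filter_not (s := D)
      (fun d => ∀ d' ∈ D, d' ≠ d → DIL_phi Q R r d ≠ DIL_phi Q R r d')
    omega
  have hsum1 : R * (m + 1) ≤ 2 * ∑ r ∈ Finset.range R, (col r).card := by
    rw [Finset.mul_sum]
    calc R * (m + 1) = ∑ _r ∈ Finset.range R, (m + 1) := by simp
      _ ≤ _ := Finset.sum_le_sum (fun r _ => hmany r)
  have hsum2 : ∑ r ∈ Finset.range R, (col r).card ≤ (m * m - m) * (2 * ((R - 1) / Q) + 1) := by
    have h1 : ∑ r ∈ Finset.range R, (col r).card = ∑ x ∈ D.offDiag,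
        ((Finset.range R).filter (fun r : ℕ => DIL_phi Q R r x.1 = DIL_phi Q R r x.2)).card := by
      simp only [hcol, Finset.card_filter]
      exact Finset.sum_comm
    rw [h1, hm, ← Finset.offDiag_card]
    rw [← smul_eq_mul]
    apply Finset.sum_le_card_nsmul
    intro x hx
    rw [Finset.mem_offDiag] at hx
    exact DIL_pair Q R x.1 x.2 hQ0 hR hx.2.2 (hlt _ hx.1 _ hx.2.1)
  have hK : Q * ((R - 1) / Q) ≤ R - 1 := Nat.mul_div_le _ _
  have hK2 : 4 * m * ((R - 1) / Q) ≤ R - 1 := (Nat.mul_le_mul_right _ hQ).trans hK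
  have hm2 : m ≤ m * m := Nat.le_mul_self m
  have hR1 := hR.one_lt
  zify [hm2, hR1.le] at hsum1 hsum2 hK2 hRge
  have hm1 : (1 : ℤ) ≤ m := by exact_mod_cast hD
  have hS : (0 : ℤ) ≤ ∑ x ∈ D, |x| := Finset.sum_nonneg (fun _ _ => abs_nonneg _)
  generalize (((R : ℤ) - 1) / Q) = K at *
  nlinarith [mul_le_mul_of_nonneg_left hK2 (by linarith : (0 : ℤ) ≤ (m : ℤ) - 1)]

theorem DIL : DIL_stmt := by
  intro B D n Q hD hQ hap
  obtain ⟨R, hR0, r, hr⟩ := DIL_good D Q hD hQ
  have hRp : (0 : ℤ) < R := by exact_mod_cast hR0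
  have hQ0 : 0 < Q := by omega
  have hQp : (0 : ℤ) < Q := by exact_mod_cast hQ0
  refine ⟨(B ×ˢ Finset.range (n + 1)).image
      (fun y : ℤ × ℕ => (DIL_phi Q R r y.1 - y.2) % (Q : ℤ)), D.image (DIL_phi Q R r),
      ?_, hr, ?_, ?_, ?_⟩
  · refine Finset.card_image_le.trans ?_
    rw [Finset.card_product, Finset.card_range, mul_comm]
  · intro x hx
    rw [Finset.mem_image] at hx
    obtain ⟨y, _, rfl⟩ := hx
    exact ⟨Int.emod_nonneg _ hQp.ne', Int.emod_lt_of_pos _ hQp⟩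
  · intro d hd
    rw [Finset.mem_image] at hd
    obtain ⟨y, _, rfl⟩ := hd
    exact ⟨DIL_phi_nonneg _ _ _ _ hQp hRp, DIL_phi_lt _ _ _ _ hQp hRp⟩
  · intro d hd
    rw [Finset.mem_image] at hd
    obtain ⟨y, hy, rfl⟩ := hd
    obtain ⟨b, hb⟩ := hap y hy
    refine ⟨DIL_phi Q R r b, fun k hk => ?_⟩
    obtain ⟨e, he, heq⟩ := DIL_prog Q R r b y k hRp
    rw [Finset.mem_image]
    refine ⟨(b + k * y, e), ?_, heq.symm⟩
    rw [Finset.mem_product, Finset.mem_range]
    exact ⟨hb k hk, by simp only; omega⟩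

end Pool.Agent.BK
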